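import Mathlib
import Pool.Agent.H228Z.CanopyDefs
import Pool.Agent.H228Z.Canopy

set_option autoImplicit false

namespace Pool.Agent.Results.MP_1af0ac_pr.InfiniteDim

open Pool.Agent.H228Z.Canopy

/-- A stationary random graph (simple random walk on a fixed connected graph of degree at most 5
with a random root of law `π`) of uniform polynomial growth on which, for every root, the space of
harmonic functions of at most cubic growth is infinite dimensional. -/
theorem result : ∃ (V : Type) (_ : Countable V) (G : SimpleGraph V) (_ : G.LocallyFinite)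
    (π : V → ℝ), G.Connected ∧ (∀ v, G.degree v ≤ 5) ∧ IsStationary G π ∧
    (∀ (v : V) (n : ℕ), 1 ≤ n → {w | G.dist v w ≤ n}.encard ≤ (324 * n ^ 4 : ℕ)) ∧
    ∀ ρ : V, ¬ FiniteDimensional ℝ (Hk G ρ 3) :=
  Pool.Agent.H228Z.Canopy.main

end Pool.Agent.Results.MP_1af0ac_pr.InfiniteDim
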